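import Pool.Agent.T6.H3.FF.Conv

set_option autoImplicit false

/-! Goldbach partitions of `2 n` with a prime in the windows of `(√(2 n), n)`. -/

namespace Pool.Agent.T6.H3.HW

open Finset
open Pool.Agent.H560R3.GB (sing)
open Pool.Agent.W93.PG (cnt)
open Pool.Agent.T6.H3.FF (WinM)
open Pool.Agent.Y614.GJ.Core (ev_log)

/-- windows in `(√m, m / 2)` -/
theorem half_windows (W : ℕ) : ∃ m₀ : ℕ, ∀ m : ℕ, m₀ ≤ m → WinM (W + 1) m →
    ∀ y z : ℕ, y < z → z ≤ m / 2 → ((m / 2 : ℕ) : ℝ) / Real.log ((m / 2 : ℕ) : ℝ) ^ W ≤ (z : ℝ) - y →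
    1 / 9 * (sing m * ((z : ℝ) - y) / Real.log m ^ 2) ≤
      (cnt m (max y (Nat.sqrt m)) (min z (m / 2 - 1)) : ℝ) ∧ 0 < (z : ℝ) - y := by
  obtain ⟨m₁, h1⟩ := Filter.eventually_atTop.1 (ev_log (W + 1) (s := 1 / 4) (by norm_num) 100)
  refine ⟨m₁ + 10, fun m hm hwin y z hyz hz hlen => ?_⟩
  obtain ⟨hL, hLp⟩ := h1 m (by omega)
  have hm0 : (0 : ℝ) < m := by exact_mod_cast (by omega : 0 < m)
  obtain ⟨L, hLd⟩ : ∃ L, L = Real.log (m : ℝ) := ⟨_, rfl⟩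
  rw [← hLd] at hL hLp ⊢
  obtain ⟨h, hh⟩ : ∃ h : ℕ, h = m / 2 := ⟨_, rfl⟩
  rw [← hh] at hz hlen ⊢
  have hh1 : (m : ℝ) ≤ 2 * h + 1 := by
    have : m ≤ 2 * h + 1 := by omega
    exact_mod_cast this
  have hh2 : 2 * (h : ℝ) ≤ m := by
    have : 2 * h ≤ m := by omega
    exact_mod_cast this
  have hh5 : (5 : ℝ) ≤ h := by
    have : 5 ≤ h := by omega
    exact_mod_cast this
  have hlh0 : 0 < Real.log (h : ℝ) := Real.log_pos (by linarith)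
  have hlhL : Real.log (h : ℝ) ≤ L := by
    rw [hLd]
    exact Real.log_le_log (by linarith) (by linarith)
  have hL0 : 0 < L := by linarith
  have hW : 0 < L ^ W := by positivity
  obtain ⟨s, hs⟩ : ∃ s, s = Nat.sqrt m := ⟨_, rfl⟩
  have hs1 : s * s ≤ m := by rw [hs]; exact Nat.sqrt_le m
  rw [← hs]
  -- the root
  have hm1 : (1 : ℝ) ≤ m := by exact_mod_cast (by omega : 1 ≤ m)
  obtain ⟨Q, hQ⟩ : ∃ Q : ℝ, Q = (m : ℝ) ^ (1 / 4 : ℝ) := ⟨_, rfl⟩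
  have hQ4 : Q * Q * (Q * Q) = m := by
    rw [hQ, ← Real.rpow_add hm0, ← Real.rpow_add hm0]
    norm_num
  have hQ0 : 0 < Q := by rw [hQ]; positivity
  rw [← hQ] at hLp
  have hsQ : (s : ℝ) ≤ Q * Q := by
    have e1 : (s : ℝ) * s ≤ m := by exact_mod_cast hs1
    rw [← hQ4] at e1
    nlinarith [mul_pos hQ0 hQ0]
  have hLW : L ^ W * L ≤ Q := by rw [← pow_succ]; exact hLp
  have hQ100 : 100 ≤ Q := by
    have : 1 ≤ L ^ W := one_le_pow₀ (by linarith)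
    nlinarith
  -- the window is long
  have hlen2 : (h : ℝ) / L ^ W ≤ (z : ℝ) - y := by
    refine le_trans ?_ hlen
    exact div_le_div_of_nonneg_left (by linarith) (pow_pos hlh0 W) (pow_le_pow_left₀ hlh0.le hlhL W)
  have hlong : 20 * ((s : ℝ) + 1) ≤ (h : ℝ) / L ^ W := by
    rw [le_div_iff₀ hW]
    have e1 : L ^ W ≤ Q / 100 := by
      rw [le_div_iff₀ (by norm_num)]
      calc L ^ W * 100 ≤ L ^ W * L := mul_le_mul_of_nonneg_left hL hW.le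
        _ ≤ Q := hLW
    have e2 : (s : ℝ) + 1 ≤ 2 * (Q * Q) := by nlinarith
    have e3 : 20 * ((s : ℝ) + 1) * L ^ W ≤ 20 * (2 * (Q * Q)) * (Q / 100) :=
      mul_le_mul (by linarith) e1 hW.le (by positivity)
    refine e3.trans ?_
    have e4 : Q * Q * Q * 100 ≤ m := by
      rw [← hQ4]
      nlinarith [mul_pos hQ0 hQ0, mul_pos (mul_pos hQ0 hQ0) hQ0]
    nlinarith
  have hzy0 : 0 < (z : ℝ) - y := by
    have : (y : ℝ) < z := by exact_mod_cast hyz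
    linarith
  refine ⟨?_, hzy0⟩
  obtain ⟨Y, hY⟩ : ∃ Y, Y = max y s := ⟨_, rfl⟩
  obtain ⟨Z, hZ⟩ : ∃ Z, Z = min z (h - 1) := ⟨_, rfl⟩
  rw [← hY, ← hZ]
  have hYle : Y ≤ y + s := by rw [hY]; omega
  have hZge : z ≤ Z + 1 := by rw [hZ]; omega
  have hYr : (Y : ℝ) ≤ y + s := by exact_mod_cast hYle
  have hZr : (z : ℝ) ≤ Z + 1 := by exact_mod_cast hZge
  have hs0 : (0 : ℝ) ≤ s := Nat.cast_nonneg s
  have hYZ : (Y : ℝ) < Z := by linarith
  have hYZ' : Y < Z := by exact_mod_cast hYZ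
  have h3 := hwin Y Z hYZ' (by rw [hZ]; omega) (by
    rw [← hLd, pow_succ]
    have e1 : (m : ℝ) / (L ^ W * L) ≤ (h : ℝ) / L ^ W / 2 := by
      rw [div_div, div_le_div_iff₀ (by positivity) (by positivity)]
      have e2 : (m : ℝ) * 2 ≤ h * L := by nlinarith
      calc (m : ℝ) * (L ^ W * 2) = (m : ℝ) * 2 * L ^ W := by ring
        _ ≤ h * L * L ^ W := mul_le_mul_of_nonneg_right e2 hW.le
        _ = _ := by ring
    linarith)
  refine le_trans ?_ h3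
  rw [← hLd]
  have hsg := Pool.Agent.R460.GS.one_le_sing m
  have e5 : 0 < sing m / L ^ 2 := by positivity
  have e6 : 1 / 9 * ((z : ℝ) - y) ≤ 1 / 8 * ((Z : ℝ) - Y) := by linarith
  calc 1 / 9 * (sing m * ((z : ℝ) - y) / L ^ 2) = sing m / L ^ 2 * (1 / 9 * ((z : ℝ) - y)) := by ring
    _ ≤ sing m / L ^ 2 * (1 / 8 * ((Z : ℝ) - Y)) := mul_le_mul_of_nonneg_left e6 e5.le
    _ = _ := by ring

end Pool.Agent.T6.H3.HW
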